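import Mathlib

/-!
Mates for Harary polynomials (MP_09e7c7_co): definitions.
-/

namespace Pool.Agent.Mate

open Finset

/-- a graph property: a class of graphs closed under isomorphism -/
structure GProp where
  /-- the graphs with the property -/
  mem : ∀ {V : Type}, SimpleGraph V → Prop
  /-- closed under isomorphism -/
  iso : ∀ {V W : Type} (G : SimpleGraph V) (H : SimpleGraph W), G ≃g H → mem G → mem H

/-- the number `h_i` of `P`-partitions of `G` with exactly `i` blocks -/
noncomputable def hnum (P : GProp) {V : Type} [Fintype V] [DecidableEq V] (G : SimpleGraph V)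
    (i : ℕ) : ℕ :=
  Nat.card {π : Finpartition (univ : Finset V) //
    π.parts.card = i ∧ ∀ B ∈ π.parts, P.mem (G.induce (B : Set V))}

/-- the Harary polynomial -/
noncomputable def harary (P : GProp) {V : Type} [Fintype V] [DecidableEq V]
    (G : SimpleGraph V) : Polynomial ℤ :=
  ∑ i ∈ range (Fintype.card V + 1), (hnum P G i : ℤ) • descPochhammer ℤ i

/-- non-isomorphic graphs with the same Harary polynomial -/
def Mates (P : GProp) {V : Type} [Fintype V] [DecidableEq V] (G H : SimpleGraph V) : Prop :=
  IsEmpty (G ≃g H) ∧ harary P G = harary P H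

/-- there are infinitely many pairs of mates: pairs of arbitrarily large order -/
def InfMates (P : GProp) : Prop :=
  ∀ N : ℕ, ∃ (n : ℕ) (G H : SimpleGraph (Fin n)), N ≤ n ∧ Mates P G H

/-- the class of the complements of the graphs of `P` -/
def GProp.co (P : GProp) : GProp where
  mem G := P.mem Gᶜ
  iso G H e h := P.iso Gᶜ Hᶜ ⟨e.toEquiv, by
    intro a b
    simp only [SimpleGraph.compl_adj, ne_eq, EmbeddingLike.apply_eq_iff_eq]
    exact and_congr Iff.rfl (not_congr e.map_rel_iff)⟩ h

/-- the class of the graphs which are not in `P` -/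
def GProp.neg (P : GProp) : GProp where
  mem G := ¬ P.mem G
  iso G H e h hH := h (P.iso H G e.symm hH)

/-- `U` is a vertex cover of `X`: every edge has an end in `U` -/
def Covers {V : Type} (X : SimpleGraph V) (U : Finset V) : Prop :=
  ∀ x y, X.Adj x y → x ∈ U ∨ y ∈ U

/-- For every large `n`: either all graphs of order `n` with a vertex cover of less than `3 log₂ n`
vertices are in `P`, or none of them is (like the edgeless graph). -/
def Blind (P : GProp) : Prop :=
  ∃ n₀ : ℕ, ∀ (V : Type) [Fintype V] (X : SimpleGraph V) (U : Finset V), n₀ ≤ Fintype.card V →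
    Covers X U → 2 ^ U.card < Fintype.card V ^ 3 → (P.mem X ↔ P.mem (⊥ : SimpleGraph V))

/-- closed under induced subgraphs -/
def Hereditary (P : GProp) : Prop :=
  ∀ (V : Type) [Fintype V] (X : SimpleGraph V) (S : Set V), P.mem X → P.mem (X.induce S)

end Pool.Agent.Mate
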