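import Pool.Agent.Helper2_Mate.Defs

/-!
Mates for Harary polynomials (MP_09e7c7_co): partitions as families of blocks.
-/

namespace Pool.Agent.Mate

open Finset

section
variable {V W : Type} [Fintype V] [DecidableEq V] [Fintype W] [DecidableEq W]

open Classical in
/-- the partitions of `R` in blocks with `pr`, with `i - q` blocks -/
noncomputable def fam (pr : Finset V → Prop) (R : Finset V) (q i : ℕ) :
    Finset (Finset (Finset V)) :=
  univ.filter fun F => F.card + q = i ∧ (∀ B ∈ F, B.Nonempty) ∧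
    (F : Set (Finset V)).PairwiseDisjoint id ∧ F.biUnion id = R ∧ ∀ B ∈ F, pr B

lemma mem_fam {pr : Finset V → Prop} {R : Finset V} {q i : ℕ} {F : Finset (Finset V)} :
    F ∈ fam pr R q i ↔ F.card + q = i ∧ (∀ B ∈ F, B.Nonempty) ∧
      (F : Set (Finset V)).PairwiseDisjoint id ∧ F.biUnion id = R ∧ ∀ B ∈ F, pr B := by
  simp [fam]

lemma hnum_eq (P : GProp) (G : SimpleGraph V) (i : ℕ) :
    hnum P G i = (fam (fun B : Finset V => P.mem (G.induce (B : Set V))) univ 0 i).card := by
  classical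
  rw [hnum, ← Fintype.card_coe, ← Nat.card_eq_fintype_card]
  refine Nat.card_congr
    { toFun := fun π => ⟨π.1.parts, ?_⟩
      invFun := fun F => ⟨⟨F.1, ?_, ?_, ?_⟩, ?_⟩
      left_inv := ?_
      right_inv := ?_ }
  · rw [mem_fam]
    refine ⟨by rw [add_zero]; exact π.2.1, fun B hB => π.1.nonempty_of_mem_parts hB,
      π.1.disjoint, π.1.biUnion_parts, π.2.2⟩
  · have h := mem_fam.1 F.2
    exact Finset.supIndep_iff_pairwiseDisjoint.2 h.2.2.1
  · have h := mem_fam.1 F.2
    rw [Finset.sup_eq_biUnion]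
    exact h.2.2.2.1
  · have h := mem_fam.1 F.2
    intro hb
    exact Finset.not_nonempty_empty (h.2.1 _ hb)
  · have h := mem_fam.1 F.2
    exact ⟨h.1, h.2.2.2.2⟩
  · intro π
    rfl
  · intro F
    rfl

lemma fam_map_le (e : V ≃ W) {pr : Finset V → Prop} {pr' : Finset W → Prop}
    (h : ∀ B, pr B → pr' (B.map e.toEmbedding)) (R : Finset V) (q i : ℕ) :
    (fam pr R q i).card ≤ (fam pr' (R.map e.toEmbedding) q i).card := by
  classical
  refine Finset.card_le_card_of_injOn
    (fun F => F.map (Finset.mapEmbedding e.toEmbedding).toEmbedding) ?_ ?_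
  · intro F hF
    have hF' := mem_fam.1 (Finset.mem_coe.1 hF)
    obtain ⟨h1, h2, h3, h4, h5⟩ := hF'
    refine Finset.mem_coe.2 (mem_fam.2 ⟨by rw [card_map]; exact h1, ?_, ?_, ?_, ?_⟩)
    · intro B hB
      obtain ⟨C, hC, rfl⟩ := Finset.mem_map.1 hB
      exact (h2 C hC).map
    · intro B hB C hC hBC
      obtain ⟨B', hB', rfl⟩ := Finset.mem_map.1 (Finset.mem_coe.1 hB)
      obtain ⟨C', hC', rfl⟩ := Finset.mem_map.1 (Finset.mem_coe.1 hC)
      have hne : B' ≠ C' := fun h => hBC (by rw [h])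
      exact (Finset.disjoint_map _).2 (h3 hB' hC' hne)
    · rw [← h4]
      ext y
      simp only [mem_biUnion, Finset.mem_map, id]
      constructor
      · rintro ⟨B, ⟨C, hC, rfl⟩, hy⟩
        obtain ⟨x, hx, rfl⟩ := Finset.mem_map.1 hy
        exact ⟨x, ⟨C, hC, hx⟩, rfl⟩
      · rintro ⟨x, ⟨C, hC, hx⟩, rfl⟩
        exact ⟨_, ⟨C, hC, rfl⟩, Finset.mem_map.2 ⟨x, hx, rfl⟩⟩
    · intro B hB
      obtain ⟨C, hC, rfl⟩ := Finset.mem_map.1 hB
      exact h C (h5 C hC)
  · intro F _ F' _ h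
    exact Finset.map_injective _ h

omit [Fintype V] [DecidableEq V] [Fintype W] [DecidableEq W] in
lemma induce_map_iso (e : V ≃ W) {G : SimpleGraph V} {H : SimpleGraph W}
    (he : ∀ x y, G.Adj x y ↔ H.Adj (e x) (e y)) (B : Finset V) :
    Nonempty (G.induce (B : Set V) ≃g H.induce ((B.map e.toEmbedding : Finset W) : Set W)) := by
  refine ⟨⟨e.subtypeEquiv fun x => ?_, ?_⟩⟩
  · simp
  · intro a b
    exact (he _ _).symm

lemma hnum_le_of_iso (P : GProp) (e : V ≃ W) {G : SimpleGraph V} {H : SimpleGraph W}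
    (he : ∀ x y, G.Adj x y ↔ H.Adj (e x) (e y)) (i : ℕ) : hnum P G i ≤ hnum P H i := by
  rw [hnum_eq, hnum_eq]
  refine (fam_map_le e (pr' := fun B : Finset W => P.mem (H.induce (B : Set W))) ?_ _ _ _).trans_eq ?_
  · intro B hB
    obtain ⟨f⟩ := induce_map_iso e he B
    exact P.iso _ _ f hB
  · rw [Finset.map_univ_equiv]

lemma hnum_iso (P : GProp) (e : V ≃ W) {G : SimpleGraph V} {H : SimpleGraph W}
    (he : ∀ x y, G.Adj x y ↔ H.Adj (e x) (e y)) (i : ℕ) : hnum P G i = hnum P H i := by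
  refine le_antisymm (hnum_le_of_iso P e he i) (hnum_le_of_iso P e.symm ?_ i)
  intro x y
  rw [he, e.apply_symm_apply, e.apply_symm_apply]

lemma harary_eq (P : GProp) {G : SimpleGraph V} {H : SimpleGraph V}
    (h : ∀ i, hnum P G i = hnum P H i) : harary P G = harary P H := by
  simp only [harary, h]

lemma harary_iso (P : GProp) (e : V ≃ W) {G : SimpleGraph V} {H : SimpleGraph W}
    (he : ∀ x y, G.Adj x y ↔ H.Adj (e x) (e y)) : harary P G = harary P H := by
  simp only [harary, hnum_iso P e he, Fintype.card_congr e]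

end

/-- it is enough to find mates on arbitrary vertex sets -/
lemma infMates_of (P : GProp) (h : ∀ N : ℕ, ∃ (V : Type) (_ : Fintype V) (_ : DecidableEq V)
    (G H : SimpleGraph V), N ≤ Fintype.card V ∧ IsEmpty (G ≃g H) ∧
      ∀ i, hnum P G i = hnum P H i) : InfMates P := by
  intro N
  obtain ⟨V, _, _, G, H, hN, hiso, hh⟩ := h N
  let e := Fintype.equivFin V
  have key : ∀ X : SimpleGraph V, ∀ x y, X.Adj x y ↔ (X.comap e.symm).Adj (e x) (e y) := by
    intro X x y
    simp [SimpleGraph.comap_adj]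
  refine ⟨Fintype.card V, G.comap e.symm, H.comap e.symm, hN, ?_, ?_⟩
  · refine ⟨fun f => hiso.false ?_⟩
    refine ⟨(e.trans f.toEquiv).trans e.symm, ?_⟩
    intro a b
    have h1 := f.map_rel_iff (a := e a) (b := e b)
    simp only [SimpleGraph.comap_adj, Equiv.symm_apply_apply] at h1
    exact h1
  · rw [← harary_iso P e (key G), ← harary_iso P e (key H)]
    exact harary_eq P hh

end Pool.Agent.Mate
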