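import Pool.Agent.Helper2_Mate.Hub

/-!
Mates for Harary polynomials (MP_09e7c7_co): the theorems.
-/

namespace Pool.Agent.Mate

open Finset

/-- the exponent in the count of the vectors -/
def DD (t L : ℕ) : ℕ := t + (t * L + 1) * ((t + 1) * ((t * L + 1) * (t + 1)))

lemma arith {t L : ℕ} (N : ℕ) (h : DD t L + 2 ≤ 2 ^ t) : ∃ m, N ≤ m ∧ N ≤ Fintype.card (VV t m) ∧
    (((Fintype.card (VV t m) + 1) ^ L) ^ t + 1) ^ ((t + 1) * ((t * L + 1) * (t + 1))) *
      (Fintype.card (VV t m)) ^ t < (m + 1) ^ (2 ^ t - 1) := by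
  set K := (t + 1) * ((t * L + 1) * (t + 1)) with hK
  have hD : DD t L = t + (t * L + 1) * K := rfl
  set D := DD t L with hDdef
  have h2t : 2 ≤ 2 ^ t := by omega
  refine ⟨2 ^ (t * D) + N, Nat.le_add_left _ _, ?_, ?_⟩
  · rw [card_VV]
    have h1 : 1 ≤ 2 ^ t - 1 := by omega
    have h2 : 1 * (2 ^ (t * D) + N) ≤ (2 ^ t - 1) * (2 ^ (t * D) + N) :=
      Nat.mul_le_mul_right _ h1
    rw [one_mul] at h2
    exact ((Nat.le_add_left _ _).trans h2).trans (Nat.le_add_left _ _)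
  · set m := 2 ^ (t * D) + N with hm
    have hm1 : 2 ^ (t * D) < m + 1 := by omega
    have hpos : 0 < 2 ^ (t * D) := by positivity
    rw [card_VV]
    set n := t + (2 ^ t - 1) * m with hn
    have hb : n + 1 ≤ 2 ^ t * (m + 1) := by
      have h1 : t < 2 ^ t := Nat.lt_two_pow_self
      have h3 : (2 ^ t - 1) * m + m = 2 ^ t * m := by
        rw [← Nat.succ_mul]
        congr 1
        omega
      have h4 : 2 ^ t * (m + 1) = 2 ^ t * m + 2 ^ t := by ring
      omega
    have hn1 : 1 ≤ n := by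
      have h1 : 1 ≤ 2 ^ t - 1 := by omega
      have h2 : 1 * m ≤ (2 ^ t - 1) * m := Nat.mul_le_mul_right _ h1
      omega
    have e1 : ((n + 1) ^ L) ^ t + 1 ≤ (n + 1) ^ (t * L + 1) := by
      rw [← pow_mul, mul_comm L t, pow_succ]
      have h1 : 1 ≤ (n + 1) ^ (t * L) := Nat.one_le_pow _ _ (by omega)
      have h2 : (n + 1) ^ (t * L) * 2 ≤ (n + 1) ^ (t * L) * (n + 1) :=
        Nat.mul_le_mul_left _ (by omega)
      omega
    calc (((n + 1) ^ L) ^ t + 1) ^ K * n ^ t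
        ≤ ((n + 1) ^ (t * L + 1)) ^ K * (n + 1) ^ t :=
          Nat.mul_le_mul (Nat.pow_le_pow_left e1 _) (Nat.pow_le_pow_left (by omega) _)
      _ = (n + 1) ^ D := by rw [← pow_mul, ← pow_add, hD, add_comm ((t * L + 1) * K) t]
      _ ≤ (2 ^ t * (m + 1)) ^ D := Nat.pow_le_pow_left hb _
      _ = 2 ^ (t * D) * (m + 1) ^ D := by rw [mul_pow, ← pow_mul]
      _ < (m + 1) * (m + 1) ^ D := Nat.mul_lt_mul_of_pos_right hm1 (by positivity)
      _ = (m + 1) ^ (D + 1) := by rw [pow_succ, mul_comm]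
      _ ≤ (m + 1) ^ (2 ^ t - 1) := Nat.pow_le_pow_right (by omega) (by omega)

theorem infMates_TL {P : GProp} {t L : ℕ} (hP : BlindTL P t L) (h : DD t L + 2 ≤ 2 ^ t) :
    InfMates P := by
  refine infMates_of P fun N => ?_
  obtain ⟨m, -, hm2, hm3⟩ := arith N h
  obtain ⟨c, c', hc, hh⟩ := hub_mates hP hm3
  exact ⟨VV t m, inferInstance, inferInstance, gr c, gr c', hm2, hc, hh⟩

lemma pow_bound (s : ℕ) (hs : 32 ≤ s) : 512 * s ^ 4 ≤ 2 ^ s := by
  induction s, hs using Nat.le_induction with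
  | base => norm_num
  | succ s hs ih =>
    have h1 : (s + 1) ^ 4 ≤ 2 * s ^ 4 := by
      have e : (s + 1) ^ 4 = s ^ 4 + (4 * s ^ 3 + 6 * s ^ 2 + 4 * s + 1) := by ring
      have h3 : 32 * s ^ 3 ≤ s * s ^ 3 := Nat.mul_le_mul_right _ hs
      have h4 : s * s ^ 3 = s ^ 4 := by ring
      have h5 : s ^ 2 * 32 ≤ s ^ 2 * s := Nat.mul_le_mul_left _ hs
      have h6 : s ^ 2 * s = s ^ 3 := by ring
      have h7 : s * 32 ≤ s * s := Nat.mul_le_mul_left _ hs
      have h8 : s * s = s ^ 2 := by ring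
      omega
    calc 512 * (s + 1) ^ 4 ≤ 512 * (2 * s ^ 4) := Nat.mul_le_mul_left _ h1
      _ = 2 * (512 * s ^ 4) := by ring
      _ ≤ 2 * 2 ^ s := Nat.mul_le_mul_left _ ih
      _ = 2 ^ (s + 1) := by ring

lemma DD_bound (s : ℕ) (hs : 32 ≤ s) : DD (3 * s) (2 ^ s) + 2 ≤ 2 ^ (3 * s) := by
  have h1 := pow_bound s hs
  have hx1 : 1 ≤ 2 ^ s := Nat.one_le_two_pow
  set x := 2 ^ s with hx
  have h2 : 3 * s * x + 1 ≤ 4 * s * x := by
    have : 1 ≤ s * x := Nat.one_le_iff_ne_zero.2 (by positivity)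
    have e : 4 * s * x = 3 * s * x + s * x := by ring
    omega
  have h3 : 3 * s + 1 ≤ 4 * s := by omega
  have h4 : DD (3 * s) x ≤ 3 * s + (4 * s * x) * ((4 * s) * ((4 * s * x) * (4 * s))) := by
    unfold DD
    exact Nat.add_le_add_left (Nat.mul_le_mul h2 (Nat.mul_le_mul h3 (Nat.mul_le_mul h2 h3))) _
  have h5 : 3 * s + (4 * s * x) * ((4 * s) * ((4 * s * x) * (4 * s))) =
      3 * s + 256 * (s ^ 4 * x ^ 2) := by ring
  have h6 : 3 * s + 2 ≤ 256 * (s ^ 4 * x ^ 2) := by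
    have h7 : s * 1 ≤ s * s ^ 3 := Nat.mul_le_mul_left _ (Nat.one_le_pow _ _ (by omega))
    have h8 : s ^ 4 * 1 ≤ s ^ 4 * x ^ 2 := Nat.mul_le_mul_left _ (Nat.one_le_pow _ _ (by omega))
    have e : s * s ^ 3 = s ^ 4 := by ring
    omega
  have h9 : (512 * s ^ 4) * x ^ 2 ≤ x * x ^ 2 := Nat.mul_le_mul_right _ h1
  have h10 : 2 ^ (3 * s) = x * x ^ 2 := by
    rw [hx]; ring
  have h11 : (512 * s ^ 4) * x ^ 2 = 512 * (s ^ 4 * x ^ 2) := by ring
  omega

/-- MAIN THEOREM: if membership in `P` is constant on the graphs of order `n` with a vertex cover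
of less than `3 log₂ n` vertices, for every large `n`, then there are infinitely many pairs of
mates. -/
theorem infMates_of_blind {P : GProp} (hP : Blind P) : InfMates P := by
  obtain ⟨n₀, hn⟩ := hP
  refine infMates_TL (t := 3 * (32 + n₀)) (L := 2 ^ (32 + n₀)) ?_ (DD_bound _ (by omega))
  intro V _ X U hV hU hUt
  refine hn V X U ?_ hU ?_
  · have : 32 + n₀ < 2 ^ (32 + n₀) := Nat.lt_two_pow_self
    omega
  · calc 2 ^ U.card ≤ 2 ^ (3 * (32 + n₀)) := Nat.pow_le_pow_right (by norm_num) hUt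
      _ = (2 ^ (32 + n₀)) ^ 3 := by rw [← pow_mul, mul_comm]
      _ < Fintype.card V ^ 3 := Nat.pow_lt_pow_left hV (by norm_num)

/-! ### Complements -/

lemma hnum_co (P : GProp) {V : Type} [Fintype V] [DecidableEq V] (G : SimpleGraph V) (i : ℕ) :
    hnum P.co G i = hnum P Gᶜ i := by
  have h : ∀ B : Finset V, P.co.mem (G.induce (B : Set V)) ↔ P.mem (Gᶜ.induce (B : Set V)) := by
    intro B
    have e : (G.induce (B : Set V))ᶜ = Gᶜ.induce (B : Set V) := by
      ext x y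
      exact and_congr (not_congr Subtype.ext_iff) Iff.rfl
    show P.mem (G.induce (B : Set V))ᶜ ↔ _
    rw [e]
  simp only [hnum, h]

theorem infMates_of_co {P : GProp} (h : InfMates P.co) : InfMates P := by
  intro N
  obtain ⟨n, G, H, hn, hiso, hpol⟩ := h N
  refine ⟨n, Gᶜ, Hᶜ, hn, ⟨fun e => hiso.false ?_⟩, ?_⟩
  · refine ⟨e.toEquiv, ?_⟩
    intro a b
    have h1 := e.map_rel_iff (a := a) (b := b)
    simp only [SimpleGraph.compl_adj] at h1
    by_cases hab : a = b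
    · subst hab; simp
    · have hab' : e a ≠ e b := fun h => hab (e.injective h)
      have h2 : ¬ H.Adj (e a) (e b) ↔ ¬ G.Adj a b := by
        simpa [hab, hab'] using h1
      exact not_iff_not.1 h2
  · simp only [harary, hnum_co] at hpol ⊢
    exact hpol

/-! ### Edgeless and complete graphs -/

theorem mates_bot_top {P : GProp}
    (h : ∀ n : ℕ, P.mem (⊥ : SimpleGraph (Fin n)) ↔ P.mem (⊤ : SimpleGraph (Fin n))) {n : ℕ}
    (hn : 2 ≤ n) : Mates P (⊥ : SimpleGraph (Fin n)) ⊤ := by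
  refine ⟨⟨fun e => ?_⟩, harary_eq P fun i => ?_⟩
  · have h1 := e.map_rel_iff (a := e.symm ⟨0, by omega⟩) (b := e.symm ⟨1, by omega⟩)
    simp at h1
  · have hb : ∀ B : Finset (Fin n),
        P.mem ((⊥ : SimpleGraph (Fin n)).induce (B : Set (Fin n))) ↔
        P.mem ((⊤ : SimpleGraph (Fin n)).induce (B : Set (Fin n))) := by
      intro B
      have e : Fin B.card ≃ ((B : Set (Fin n)) : Type) := (Fintype.equivFinOfCardEq (by simp)).symm
      have e1 : (⊥ : SimpleGraph (Fin n)).induce (B : Set (Fin n)) = ⊥ := by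
        ext x y; simp
      have e2 : (⊤ : SimpleGraph (Fin n)).induce (B : Set (Fin n)) = ⊤ := by
        ext x y
        exact (not_congr Subtype.ext_iff).symm
      rw [e1, e2]
      have i1 : (⊥ : SimpleGraph (Fin B.card)) ≃g (⊥ : SimpleGraph ((B : Set (Fin n)) : Type)) :=
        ⟨e, by intro a b; simp⟩
      have i2 : (⊤ : SimpleGraph (Fin B.card)) ≃g (⊤ : SimpleGraph ((B : Set (Fin n)) : Type)) :=
        ⟨e, by intro a b; simp⟩
      exact ⟨fun hh => P.iso _ _ i2 ((h _).1 (P.iso _ _ i1.symm hh)),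
        fun hh => P.iso _ _ i1 ((h _).2 (P.iso _ _ i2.symm hh))⟩
    simp only [hnum, hb]

/-! ### Bounded independence number -/

/-- all graphs with the property have independence number at most `a`, for some `a` -/
def BddInd (Q : GProp) : Prop :=
  ∃ a : ℕ, ∀ (V : Type) [Fintype V] (X : SimpleGraph V) (S : Finset V), Q.mem X →
    (∀ x ∈ S, ∀ y ∈ S, ¬ X.Adj x y) → S.card ≤ a

lemma cube_lt {a n : ℕ} (hn : 2 * a + 32 ≤ n) {u : ℕ} (hu : 2 ^ u < n ^ 3) : u + a < n := by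
  by_contra hno
  have h1 := pow_bound (n - a) (by omega)
  have h2 : 2 ^ (n - a) ≤ 2 ^ u := Nat.pow_le_pow_right (by norm_num) (by omega)
  have h3 : n ^ 3 ≤ (2 * (n - a)) ^ 3 := Nat.pow_le_pow_left (by omega) _
  set s := n - a with hs
  have h4 : (2 * s) ^ 3 = 8 * s ^ 3 := by ring
  have h5 : 1 * s ^ 3 ≤ s * s ^ 3 := Nat.mul_le_mul_right _ (by omega)
  have h6 : s * s ^ 3 = s ^ 4 := by ring
  omega

lemma not_mem_of_bdd {Q : GProp} {a : ℕ} (ha : ∀ (V : Type) [Fintype V] (X : SimpleGraph V)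
    (S : Finset V), Q.mem X → (∀ x ∈ S, ∀ y ∈ S, ¬ X.Adj x y) → S.card ≤ a)
    {V : Type} [Fintype V] (X : SimpleGraph V) (U : Finset V) (hV : 2 * a + 32 ≤ Fintype.card V)
    (hU : Covers X U) (hc : 2 ^ U.card < Fintype.card V ^ 3) : ¬ Q.mem X := by
  classical
  intro hX
  have h1 := cube_lt hV hc
  have h2 := ha V X Uᶜ hX (by
    intro x hx y hy hxy
    rcases hU x y hxy with h | h
    · exact (Finset.mem_compl.1 hx) h
    · exact (Finset.mem_compl.1 hy) h)
  rw [Finset.card_compl] at h2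
  omega

lemma blind_of_bdd {P : GProp} (h : BddInd P ∨ BddInd P.neg) : Blind P := by
  rcases h with ⟨a, ha⟩ | ⟨a, ha⟩
  · refine ⟨2 * a + 32, fun V _ X U hV hU hc => ?_⟩
    exact iff_of_false (not_mem_of_bdd ha X U hV hU hc)
      (not_mem_of_bdd ha ⊥ U hV (fun x y h => absurd h (by simp)) hc)
  · refine ⟨2 * a + 32, fun V _ X U hV hU hc => ?_⟩
    have h1 := not_mem_of_bdd ha X U hV hU hc
    have h2 := not_mem_of_bdd ha ⊥ U hV (fun x y h => absurd h (by simp)) hc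
    exact iff_of_true (not_not.1 h1) (not_not.1 h2)

lemma bdd_of_hereditary {Q : GProp} (hQ : Hereditary Q) {a : ℕ}
    (ha : ¬ Q.mem (⊥ : SimpleGraph (Fin a))) : BddInd Q := by
  classical
  refine ⟨a, fun V _ X S hX hS => ?_⟩
  by_contra hlt
  obtain ⟨T, hTS, hT⟩ := Finset.exists_subset_card_eq (show a ≤ S.card by omega)
  apply ha
  have h1 := hQ V X (T : Set V) hX
  have h2 : X.induce (T : Set V) = ⊥ := by
    ext x y
    simp only [SimpleGraph.bot_adj, iff_false]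
    exact hS x.1 (hTS x.2) y.1 (hTS y.2)
  rw [h2] at h1
  have e : ((T : Set V) : Type) ≃ Fin a := Fintype.equivFinOfCardEq (by simp [hT])
  exact Q.iso _ _ ⟨e, by intro x y; simp⟩ h1

lemma co_hereditary {Q : GProp} (hQ : Hereditary Q) : Hereditary Q.co := by
  intro V _ X S hX
  have h := hQ V Xᶜ S hX
  have e : (X.induce S)ᶜ = Xᶜ.induce S := by
    ext x y
    exact and_congr (not_congr Subtype.ext_iff) Iff.rfl
  show Q.mem (X.induce S)ᶜ
  rw [e]
  exact h

lemma co_neg_mem (P : GProp) {V : Type} (X : SimpleGraph V) : P.neg.co.mem X ↔ P.co.neg.mem X :=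
  Iff.rfl

theorem infMates_of_bdd {P : GProp}
    (h : BddInd P ∨ BddInd P.neg ∨ BddInd P.co ∨ BddInd P.co.neg) : InfMates P := by
  rcases h with h | h | h | h
  · exact infMates_of_blind (blind_of_bdd (Or.inl h))
  · exact infMates_of_blind (blind_of_bdd (Or.inr h))
  · exact infMates_of_co (infMates_of_blind (blind_of_bdd (Or.inl h)))
  · exact infMates_of_co (infMates_of_blind (blind_of_bdd (Or.inr h)))

theorem infMates_of_hereditary {P : GProp} (h : Hereditary P ∨ Hereditary P.neg) :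
    InfMates P := by
  by_cases hq : ∀ n : ℕ, P.mem (⊥ : SimpleGraph (Fin n)) ↔ P.mem (⊤ : SimpleGraph (Fin n))
  · intro N
    exact ⟨N + 2, ⊥, ⊤, by omega, mates_bot_top hq (by omega)⟩
  · have htop : ∀ (Q : GProp) (n : ℕ), Q.co.mem (⊥ : SimpleGraph (Fin n)) ↔
        Q.mem (⊤ : SimpleGraph (Fin n)) := by
      intro Q n
      show Q.mem (⊥ : SimpleGraph (Fin n))ᶜ ↔ _
      rw [compl_bot]
    push Not at hq
    obtain ⟨n, hn⟩ := hq
    rcases h with h | h
    · rcases hn with ⟨h1, h2⟩ | ⟨h1, h2⟩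
      · exact infMates_of_bdd (Or.inr (Or.inr (Or.inl
          (bdd_of_hereditary (co_hereditary h) (a := n) (fun hh => h2 ((htop P n).1 hh))))))
      · exact infMates_of_bdd (Or.inl (bdd_of_hereditary h (a := n) h1))
    · rcases hn with ⟨h1, h2⟩ | ⟨h1, h2⟩
      · exact infMates_of_bdd (Or.inr (Or.inl (bdd_of_hereditary h (a := n) (fun hh => hh h1))))
      · refine infMates_of_bdd (Or.inr (Or.inr (Or.inr ?_)))
        have h3 : BddInd P.neg.co := bdd_of_hereditary (co_hereditary h) (a := n)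
          (fun hh => ((htop P.neg n).1 hh) h2)
        exact h3

end Pool.Agent.Mate
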