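import Pool.Agent.Helper2_Mate.Split

/-!
Mates for Harary polynomials (MP_09e7c7_co): graphs with few hubs and the pigeonhole principle.
-/

namespace Pool.Agent.Mate

open Finset

/-- the non-empty sets of hubs -/
abbrev Ty (t : ℕ) : Type := {T : Finset (Fin t) // T.Nonempty}

/-- `t` hubs and `(2 ^ t - 1) m` leaves -/
abbrev VV (t m : ℕ) : Type := Fin t ⊕ (Ty t × Fin m)

/-- the set of the hubs -/
def hubs (t m : ℕ) : Finset (VV t m) := univ.map ⟨Sum.inl, Sum.inl_injective⟩

lemma mem_hubs {t m : ℕ} {x : VV t m} : x ∈ hubs t m ↔ ∃ u, x = Sum.inl u := by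
  simp only [hubs, Finset.mem_map, Finset.mem_univ, true_and, Function.Embedding.coeFn_mk]
  constructor
  · rintro ⟨u, rfl⟩; exact ⟨u, rfl⟩
  · rintro ⟨u, rfl⟩; exact ⟨u, rfl⟩

lemma card_hubs (t m : ℕ) : (hubs t m).card = t := by
  rw [hubs, Finset.card_map, Finset.card_univ, Fintype.card_fin]

lemma card_Ty (t : ℕ) : Fintype.card (Ty t) = 2 ^ t - 1 := by
  have h1 : Fintype.card (Ty t) = (univ.filter fun T : Finset (Fin t) => T.Nonempty).card :=
    Fintype.card_subtype _
  have h2 : (univ.filter fun T : Finset (Fin t) => T.Nonempty) = univ.erase ∅ := by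
    ext T
    simp [Finset.nonempty_iff_ne_empty]
  rw [h1, h2, Finset.card_erase_of_mem (Finset.mem_univ _), Finset.card_univ,
    Fintype.card_finset, Fintype.card_fin]

lemma card_VV (t m : ℕ) : Fintype.card (VV t m) = t + (2 ^ t - 1) * m := by
  rw [Fintype.card_sum, Fintype.card_prod, card_Ty, Fintype.card_fin, Fintype.card_fin]

/-- hub `u` is adjacent to the first `c T` leaves of type `T`, for `u ∈ T` -/
def adj {t m : ℕ} (c : Ty t → Fin (m + 1)) : VV t m → VV t m → Prop
  | Sum.inl u, Sum.inr (T, j) => u ∈ T.1 ∧ j.1 < (c T).1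
  | Sum.inr (T, j), Sum.inl u => u ∈ T.1 ∧ j.1 < (c T).1
  | _, _ => False

/-- the graph -/
def gr {t m : ℕ} (c : Ty t → Fin (m + 1)) : SimpleGraph (VV t m) where
  Adj := adj c
  symm := ⟨by
    rintro (u | ⟨T, j⟩) (v | ⟨S, i⟩) h
    · exact h
    · exact h
    · exact h
    · exact h⟩
  loopless := ⟨by
    rintro (u | ⟨T, j⟩) h
    · exact h
    · exact h⟩

lemma gr_cover {t m : ℕ} (c : Ty t → Fin (m + 1)) (x y : VV t m) (h : (gr c).Adj x y) :
    x ∈ hubs t m ∨ y ∈ hubs t m := by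
  rcases x with u | ⟨T, j⟩
  · exact Or.inl (mem_hubs.2 ⟨u, rfl⟩)
  · rcases y with v | ⟨S, i⟩
    · exact Or.inr (mem_hubs.2 ⟨v, rfl⟩)
    · exact absurd h id

lemma card_lt_fin (m k : ℕ) (h : k ≤ m) : (univ.filter fun j : Fin m => j.1 < k).card = k := by
  have h1 : (univ.filter fun j : Fin m => j.1 < k).map ⟨Fin.val, Fin.val_injective⟩ =
      range k := by
    ext x
    simp only [Finset.mem_map, Finset.mem_filter, Finset.mem_univ, true_and,
      Function.Embedding.coeFn_mk, Finset.mem_range]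
    constructor
    · rintro ⟨j, hj, rfl⟩; exact hj
    · intro hx; exact ⟨⟨x, by omega⟩, hx, rfl⟩
  rw [← Finset.card_map ⟨Fin.val, Fin.val_injective⟩, h1, Finset.card_range]

open Classical in
lemma card_type {t m : ℕ} (c : Ty t → Fin (m + 1)) (T : Ty t) :
    (univ.filter fun v => ∀ u, (gr c).Adj (Sum.inl u) v ↔ u ∈ T.1).card = (c T).1 := by
  have hinj : Function.Injective fun j : Fin m => (Sum.inr (T, j) : VV t m) := by
    intro i j h
    simpa using h
  have h1 : (univ.filter fun v => ∀ u, (gr c).Adj (Sum.inl u) v ↔ u ∈ T.1) =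
      (univ.filter fun j : Fin m => j.1 < (c T).1).map ⟨_, hinj⟩ := by
    ext v
    simp only [Finset.mem_map, Finset.mem_filter, Finset.mem_univ, true_and,
      Function.Embedding.coeFn_mk]
    constructor
    · intro h
      obtain ⟨u₀, hu₀⟩ := T.2
      rcases v with u | ⟨S, j⟩
      · exact absurd ((h u₀).2 hu₀) id
      · have hj : j.1 < (c S).1 := ((h u₀).2 hu₀).2
        have hST : S = T := by
          ext u
          constructor
          · intro hu; exact (h u).1 ⟨hu, hj⟩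
          · intro hu; exact ((h u).2 hu).1
        subst hST
        exact ⟨j, hj, rfl⟩
    · rintro ⟨j, hj, rfl⟩ u
      exact ⟨fun h => h.1, fun h => ⟨h, hj⟩⟩
  rw [h1, Finset.card_map, card_lt_fin _ _ (by have := (c T).2; omega)]

lemma gr_inj {t m : ℕ} {c c' c₀ : Ty t → Fin (m + 1)} (e : gr c ≃g gr c₀) (e' : gr c' ≃g gr c₀)
    (h : ∀ u, e (Sum.inl u) = e' (Sum.inl u)) : c = c' := by
  classical
  have key : ∀ (d : Ty t → Fin (m + 1)) (f : gr d ≃g gr c₀) (T : Ty t),
      (d T).1 = (univ.filter fun v => ∀ u, (gr c₀).Adj (f (Sum.inl u)) v ↔ u ∈ T.1).card := by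
    intro d f T
    rw [← card_type d T]
    refine Finset.card_equiv f.toEquiv fun v => ?_
    simp only [Finset.mem_filter, Finset.mem_univ, true_and]
    refine forall_congr' fun u => ?_
    have : (gr c₀).Adj (f (Sum.inl u)) (f.toEquiv v) ↔ (gr d).Adj (Sum.inl u) v :=
      f.map_rel_iff
    rw [this]
  funext T
  apply Fin.ext
  rw [key c e T, key c' e' T]
  simp only [h]

/-- number of the isomorphic ones -/
lemma card_iso_le {t m : ℕ} (c₀ : Ty t → Fin (m + 1)) (S : Finset (Ty t → Fin (m + 1)))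
    (hS : ∀ c ∈ S, Nonempty (gr c ≃g gr c₀)) : S.card ≤ (Fintype.card (VV t m)) ^ t := by
  classical
  have hc : Fintype.card (Fin t → VV t m) = (Fintype.card (VV t m)) ^ t := by
    rw [Fintype.card_fun, Fintype.card_fin]
  rw [← hc, ← Finset.card_univ]
  refine Finset.card_le_card_of_injOn
    (fun c => if h : Nonempty (gr c ≃g gr c₀) then fun u => h.some (Sum.inl u) else
      fun u => Sum.inl u) (fun _ _ => Finset.mem_coe.2 (Finset.mem_univ _)) ?_
  intro c hc c' hc' h
  have h1 := hS c hc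
  have h2 := hS c' hc'
  simp only [dif_pos h1, dif_pos h2] at h
  exact gr_inj h1.some h2.some fun u => congrFun h u

lemma mem_bot_iff (P : GProp) {V W : Type} [Fintype V] [Fintype W]
    (h : Fintype.card V = Fintype.card W) :
    P.mem (⊥ : SimpleGraph V) ↔ P.mem (⊥ : SimpleGraph W) := by
  have e : V ≃ W := Fintype.equivOfCardEq h
  constructor
  · exact P.iso _ _ ⟨e, by intro a b; simp⟩
  · exact P.iso _ _ ⟨e.symm, by intro a b; simp⟩

/-- the hypothesis for given `t` and `L` -/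
def BlindTL (P : GProp) (t L : ℕ) : Prop :=
  ∀ (V : Type) [Fintype V] (X : SimpleGraph V) (U : Finset V), L < Fintype.card V →
    Covers X U → U.card ≤ t → (P.mem X ↔ P.mem (⊥ : SimpleGraph V))

lemma nonspecial {P : GProp} {t L m : ℕ} (hP : BlindTL P t L) (c : Ty t → Fin (m + 1))
    (B : Finset (VV t m)) (hB : ¬ Sp (hubs t m) L B) :
    P.mem ((gr c).induce (B : Set (VV t m))) ↔ P.mem (⊥ : SimpleGraph (Fin B.card)) := by
  classical
  have hcard : Fintype.card ((B : Set (VV t m)) : Type) = B.card := by simp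
  rw [← mem_bot_iff P (V := ((B : Set (VV t m)) : Type)) (by rw [hcard, Fintype.card_fin])]
  by_cases h : (B ∩ hubs t m).Nonempty
  · have hL : L < B.card := by
      by_contra hL
      exact hB ⟨h, not_lt.1 hL⟩
    refine hP _ _ (univ.filter fun x => x.1 ∈ hubs t m) (by rw [hcard]; exact hL) ?_ ?_
    · intro x y hxy
      rcases gr_cover c x.1 y.1 hxy with hx | hy
      · exact Or.inl (Finset.mem_filter.2 ⟨Finset.mem_univ _, hx⟩)
      · exact Or.inr (Finset.mem_filter.2 ⟨Finset.mem_univ _, hy⟩)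
    · refine le_trans (Finset.card_le_card_of_injOn (t := hubs t m) (fun x => x.1) ?_ ?_)
        (card_hubs t m).le
      · intro x hx
        exact Finset.mem_coe.2 (Finset.mem_filter.1 (Finset.mem_coe.1 hx)).2
      · intro x _ y _ hxy
        exact Subtype.ext hxy
  · have hbot : (gr c).induce (B : Set (VV t m)) = ⊥ := by
      ext x y
      simp only [SimpleGraph.bot_adj, iff_false]
      intro hxy
      rcases gr_cover c x.1 y.1 hxy with hx | hy
      · exact h ⟨x.1, Finset.mem_inter.2 ⟨x.2, hx⟩⟩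
      · exact h ⟨y.1, Finset.mem_inter.2 ⟨y.2, hy⟩⟩
    rw [hbot]

/-- the blocks of `gr c` with the property -/
def prc (P : GProp) {t m : ℕ} (c : Ty t → Fin (m + 1)) (B : Finset (VV t m)) : Prop :=
  P.mem ((gr c).induce (B : Set (VV t m)))

/-- the number of special families with given numbers -/
noncomputable def NN (P : GProp) (t L m : ℕ) (c : Ty t → Fin (m + 1)) (k : ℕ × ℕ × ℕ) : ℕ :=
  ((SF (hubs t m) L (prc P c)).filter fun S => key (hubs t m) S = k).card

lemma NN_lt (P : GProp) (t L m : ℕ) (c : Ty t → Fin (m + 1)) (k : ℕ × ℕ × ℕ) :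
    NN P t L m c k < ((Fintype.card (VV t m) + 1) ^ L) ^ t + 1 := by
  refine Nat.lt_succ_of_le ((Finset.card_le_card (Finset.filter_subset _ _)).trans ?_)
  refine (card_SF_le (hubs t m) L (prc P c)).trans_eq ?_
  rw [card_hubs]

lemma NN_zero (P : GProp) (t L m : ℕ) (c : Ty t → Fin (m + 1)) (k : ℕ × ℕ × ℕ)
    (hk : ¬ (k.1 < t + 1 ∧ k.2.1 < t * L + 1 ∧ k.2.2 < t + 1)) : NN P t L m c k = 0 := by
  rw [NN, Finset.card_eq_zero, Finset.filter_eq_empty_iff]
  rintro S hS rfl
  obtain ⟨h1, h2, h3⟩ := key_bound hS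
  rw [card_hubs] at h1 h2 h3
  exact hk ⟨Nat.lt_succ_of_le h1, Nat.lt_succ_of_le h2, Nat.lt_succ_of_le h3⟩

/-- the vector of the numbers -/
noncomputable def stat (P : GProp) (t L m : ℕ) (c : Ty t → Fin (m + 1)) :
    Fin (t + 1) × Fin (t * L + 1) × Fin (t + 1) →
      Fin (((Fintype.card (VV t m) + 1) ^ L) ^ t + 1) :=
  fun k => ⟨NN P t L m c (k.1.1, k.2.1.1, k.2.2.1), NN_lt P t L m c _⟩

lemma hnum_eq_of_stat {P : GProp} {t L m : ℕ} (hP : BlindTL P t L) {c c' : Ty t → Fin (m + 1)}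
    (h : stat P t L m c = stat P t L m c') (i : ℕ) : hnum P (gr c) i = hnum P (gr c') i := by
  rw [hnum_eq, hnum_eq]
  refine fam_card_eq (U := hubs t m) (L := L) (A := fun j => P.mem (⊥ : SimpleGraph (Fin j)))
    (fun B _ hB => nonspecial hP c B hB) (fun B _ hB => nonspecial hP c' B hB) ?_ i
  intro k
  show NN P t L m c k = NN P t L m c' k
  by_cases hk : k.1 < t + 1 ∧ k.2.1 < t * L + 1 ∧ k.2.2 < t + 1
  · have := congrArg Fin.val (congrFun h (⟨k.1, hk.1⟩, ⟨k.2.1, hk.2.1⟩, ⟨k.2.2, hk.2.2⟩))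
    exact this
  · rw [NN_zero P t L m c k hk, NN_zero P t L m c' k hk]

theorem hub_mates {P : GProp} {t L m : ℕ} (hP : BlindTL P t L)
    (hm : (((Fintype.card (VV t m) + 1) ^ L) ^ t + 1) ^ ((t + 1) * ((t * L + 1) * (t + 1))) *
      (Fintype.card (VV t m)) ^ t < (m + 1) ^ (2 ^ t - 1)) :
    ∃ c c' : Ty t → Fin (m + 1), IsEmpty (gr c ≃g gr c') ∧
      ∀ i, hnum P (gr c) i = hnum P (gr c') i := by
  classical
  have h1 : Fintype.card (Fin (t + 1) × Fin (t * L + 1) × Fin (t + 1) →
      Fin (((Fintype.card (VV t m) + 1) ^ L) ^ t + 1)) * (Fintype.card (VV t m)) ^ t <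
      Fintype.card (Ty t → Fin (m + 1)) := by
    rw [Fintype.card_fun, Fintype.card_fun, Fintype.card_prod, Fintype.card_prod,
      Fintype.card_fin, Fintype.card_fin, Fintype.card_fin, Fintype.card_fin, card_Ty]
    exact hm
  obtain ⟨y, hy⟩ := Fintype.exists_lt_card_fiber_of_mul_lt_card (stat P t L m) h1
  have hne : (univ.filter fun c => stat P t L m c = y).Nonempty := by
    rw [← Finset.card_pos]
    exact lt_of_le_of_lt (Nat.zero_le _) hy
  obtain ⟨c₀, hc₀⟩ := hne
  by_contra hno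
  push Not at hno
  have h2 := card_iso_le c₀ (univ.filter fun c => stat P t L m c = y) (by
    intro c hc
    by_contra hni
    obtain ⟨i, hi⟩ := hno c c₀ ⟨fun e => hni ⟨e⟩⟩
    exact hi (hnum_eq_of_stat hP
      ((Finset.mem_filter.1 hc).2.trans (Finset.mem_filter.1 hc₀).2.symm) i))
  omega

end Pool.Agent.Mate
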