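import Pool.Agent.Helper2_Mate.Fam

/-!
Mates for Harary polynomials (MP_09e7c7_co): special blocks.
-/

namespace Pool.Agent.Mate

open Finset

section
variable {V : Type} [Fintype V] [DecidableEq V]

/-- special blocks: they contain a hub and have at most `L` vertices -/
def Sp (U : Finset V) (L : ℕ) (B : Finset V) : Prop := (B ∩ U).Nonempty ∧ B.card ≤ L

open Classical in
/-- families of disjoint special blocks with `pr` -/
noncomputable def SF (U : Finset V) (L : ℕ) (pr : Finset V → Prop) : Finset (Finset (Finset V)) :=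
  univ.filter fun F => (F : Set (Finset V)).PairwiseDisjoint id ∧ ∀ B ∈ F, Sp U L B ∧ pr B

lemma mem_SF {U : Finset V} {L : ℕ} {pr : Finset V → Prop} {F : Finset (Finset V)} :
    F ∈ SF U L pr ↔ (F : Set (Finset V)).PairwiseDisjoint id ∧ ∀ B ∈ F, Sp U L B ∧ pr B := by
  simp [SF]

/-- the number of partitions of `R` in `i - q` non-special blocks with sizes in `A` -/
noncomputable def rest (U : Finset V) (L : ℕ) (A : ℕ → Prop) (R : Finset V) (q i : ℕ) : ℕ :=
  (fam (fun B => ¬ Sp U L B ∧ A B.card) R q i).card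

lemma split {U : Finset V} {L : ℕ} {pr : Finset V → Prop} {A : ℕ → Prop}
    (h : ∀ B : Finset V, B.Nonempty → ¬ Sp U L B → (pr B ↔ A B.card)) (i : ℕ) :
    (fam pr univ 0 i).card =
      ∑ S ∈ SF U L pr, rest U L A (univ \ S.biUnion id) S.card i := by
  classical
  have hmaps : ∀ F ∈ fam pr univ 0 i, F.filter (Sp U L) ∈ SF U L pr := by
    intro F hF
    obtain ⟨h1, h2, h3, h4, h5⟩ := mem_fam.1 hF
    refine mem_SF.2 ⟨h3.subset (Finset.coe_subset.2 (Finset.filter_subset _ _)), fun B hB => ?_⟩
    obtain ⟨hB1, hB2⟩ := Finset.mem_filter.1 hB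
    exact ⟨hB2, h5 B hB1⟩
  rw [Finset.card_eq_sum_card_fiberwise (f := fun F => F.filter (Sp U L)) (t := SF U L pr)
    (fun F hF => Finset.mem_coe.2 (hmaps F (Finset.mem_coe.1 hF)))]
  refine Finset.sum_congr rfl fun S hS => ?_
  obtain ⟨hS1, hS2⟩ := mem_SF.1 hS
  rw [rest]
  refine Finset.card_nbij' (fun F => F.filter fun B => ¬ Sp U L B) (fun T => S ∪ T) ?_ ?_ ?_ ?_
  · intro F hF
    obtain ⟨hF1, hF2⟩ := Finset.mem_filter.1 (Finset.mem_coe.1 hF)
    obtain ⟨h1, h2, h3, h4, h5⟩ := mem_fam.1 hF1
    refine Finset.mem_coe.2 (mem_fam.2 ⟨?_, ?_, ?_, ?_, ?_⟩)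
    · rw [← hF2, add_comm, Finset.card_filter_add_card_filter_not]
      rwa [add_zero] at h1
    · intro B hB
      exact h2 B (Finset.mem_filter.1 hB).1
    · exact h3.subset (Finset.coe_subset.2 (Finset.filter_subset _ _))
    · ext x
      simp only [mem_biUnion, Finset.mem_filter, id, Finset.mem_sdiff, Finset.mem_univ, true_and,
        ← hF2]
      constructor
      · rintro ⟨B, ⟨hB, hBs⟩, hx⟩ ⟨C, ⟨hC, hCs⟩, hx'⟩
        have hne : B ≠ C := fun he => hBs (he ▸ hCs)
        exact (Finset.disjoint_left.1 (h3 hB hC hne) hx) hx'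
      · intro hno
        have hx : x ∈ F.biUnion id := by rw [h4]; exact Finset.mem_univ x
        obtain ⟨B, hB, hxB⟩ := Finset.mem_biUnion.1 hx
        exact ⟨B, ⟨hB, fun hs => hno ⟨B, ⟨hB, hs⟩, hxB⟩⟩, hxB⟩
    · intro B hB
      obtain ⟨hB1, hB2⟩ := Finset.mem_filter.1 hB
      exact ⟨hB2, (h B (h2 B hB1) hB2).1 (h5 B hB1)⟩
  · intro T hT
    obtain ⟨h1, h2, h3, h4, h5⟩ := mem_fam.1 (Finset.mem_coe.1 hT)
    have hST : Disjoint S T := by
      rw [Finset.disjoint_left]
      intro B hB hB'
      exact (h5 B hB').1 (hS2 B hB).1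
    have hTd : ∀ B ∈ S, ∀ C ∈ T, Disjoint B C := by
      intro B hB C hC
      rw [Finset.disjoint_left]
      intro x hx hx'
      have : x ∈ T.biUnion id := Finset.mem_biUnion.2 ⟨C, hC, hx'⟩
      rw [h4] at this
      exact (Finset.mem_sdiff.1 this).2 (Finset.mem_biUnion.2 ⟨B, hB, hx⟩)
    refine Finset.mem_coe.2 (Finset.mem_filter.2 ⟨mem_fam.2 ⟨?_, ?_, ?_, ?_, ?_⟩, ?_⟩)
    · rw [Finset.card_union_of_disjoint hST]
      omega
    · intro B hB
      rcases Finset.mem_union.1 hB with hB | hB
      · obtain ⟨x, hx⟩ := (hS2 B hB).1.1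
        exact ⟨x, (Finset.mem_inter.1 hx).1⟩
      · exact h2 B hB
    · intro B hB C hC hBC
      rcases Finset.mem_union.1 (Finset.mem_coe.1 hB) with hB | hB <;>
        rcases Finset.mem_union.1 (Finset.mem_coe.1 hC) with hC | hC
      · exact hS1 hB hC hBC
      · exact hTd B hB C hC
      · exact (hTd C hC B hB).symm
      · exact h3 hB hC hBC
    · show (S ∪ T).biUnion id = univ
      rw [Finset.union_biUnion, h4]
      simp
    · intro B hB
      rcases Finset.mem_union.1 hB with hB | hB
      · exact (hS2 B hB).2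
      · exact (h B (h2 B hB) (h5 B hB).1).2 (h5 B hB).2
    · ext B
      simp only [Finset.mem_filter, Finset.mem_union]
      constructor
      · rintro ⟨hB | hB, hs⟩
        · exact hB
        · exact absurd hs (h5 B hB).1
      · intro hB
        exact ⟨Or.inl hB, (hS2 B hB).1⟩
  · intro F hF
    obtain ⟨hF1, hF2⟩ := Finset.mem_filter.1 (Finset.mem_coe.1 hF)
    show S ∪ F.filter (fun B => ¬ Sp U L B) = F
    rw [← hF2, Finset.filter_union_filter_not_eq]
  · intro T hT
    obtain ⟨h1, h2, h3, h4, h5⟩ := mem_fam.1 (Finset.mem_coe.1 hT)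
    show (S ∪ T).filter (fun B => ¬ Sp U L B) = T
    ext B
    simp only [Finset.mem_filter, Finset.mem_union]
    constructor
    · rintro ⟨hB | hB, hs⟩
      · exact absurd (hS2 B hB).1 hs
      · exact hB
    · intro hB
      exact ⟨Or.inr hB, (h5 B hB).1⟩

lemma exists_perm (U R R' : Finset V) (h1 : R.card = R'.card)
    (h2 : (R ∩ U).card = (R' ∩ U).card) :
    ∃ σ : Equiv.Perm V, R.map σ.toEmbedding = R' ∧ U.map σ.toEmbedding = U := by
  classical
  let c : V → Bool × Bool := fun x => (decide (x ∈ R), decide (x ∈ U))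
  let c' : V → Bool × Bool := fun x => (decide (x ∈ R'), decide (x ∈ U))
  have e1 := Finset.card_sdiff_add_card_inter R U
  have e2 := Finset.card_sdiff_add_card_inter R' U
  have e3 := Finset.card_sdiff_add_card_inter U R
  have e4 := Finset.card_sdiff_add_card_inter U R'
  rw [Finset.inter_comm] at e3 e4
  have e5 := Finset.card_union_add_card_inter R U
  have e6 := Finset.card_union_add_card_inter R' U
  have e7 := Finset.card_compl_add_card (R ∪ U)
  have e8 := Finset.card_compl_add_card (R' ∪ U)
  have hc : ∀ y, Fintype.card {x // c x = y} = Fintype.card {x // c' x = y} := by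
    have g : ∀ (Q : Finset V) (y : Bool × Bool),
        Fintype.card {x // (decide (x ∈ Q), decide (x ∈ U)) = y} =
          (match y with
            | (true, true) => (Q ∩ U).card
            | (true, false) => (Q \ U).card
            | (false, true) => (U \ Q).card
            | (false, false) => ((Q ∪ U)ᶜ).card) := by
      intro Q y
      rw [Fintype.card_subtype]
      rcases y with ⟨_ | _, _ | _⟩
      · congr 1; ext x; simp
      · congr 1; ext x; simp [and_comm]
      · congr 1; ext x; simp
      · congr 1; ext x; simp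
    intro y
    rw [g R y, g R' y]
    rcases y with ⟨_ | _, _ | _⟩
    · show ((R ∪ U)ᶜ).card = ((R' ∪ U)ᶜ).card
      omega
    · show (U \ R).card = (U \ R').card
      omega
    · show (R \ U).card = (R' \ U).card
      omega
    · exact h2
  let σ : Equiv.Perm V := (Equiv.sigmaFiberEquiv c).symm.trans
    ((Equiv.sigmaCongrRight fun y => Fintype.equivOfCardEq (hc y)).trans
      (Equiv.sigmaFiberEquiv c'))
  have hσ : ∀ x, c' (σ x) = c x := fun x => (Fintype.equivOfCardEq (hc (c x)) ⟨x, rfl⟩).2
  have hR : ∀ x, σ x ∈ R' ↔ x ∈ R := fun x => by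
    have := congrArg Prod.fst (hσ x)
    simpa [c, c'] using this
  have hU : ∀ x, σ x ∈ U ↔ x ∈ U := fun x => by
    have := congrArg Prod.snd (hσ x)
    simpa [c, c'] using this
  refine ⟨σ, ?_, ?_⟩
  · ext y
    rw [Finset.mem_map_equiv, ← hR, Equiv.apply_symm_apply]
  · ext y
    rw [Finset.mem_map_equiv, ← hU, Equiv.apply_symm_apply]

lemma rest_le {U : Finset V} {L : ℕ} {A : ℕ → Prop} {R R' : Finset V} (h1 : R.card = R'.card)
    (h2 : (R ∩ U).card = (R' ∩ U).card) (q i : ℕ) : rest U L A R q i ≤ rest U L A R' q i := by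
  obtain ⟨σ, hσ1, hσ2⟩ := exists_perm U R R' h1 h2
  rw [rest, rest, ← hσ1]
  refine fam_map_le σ ?_ R q i
  rintro B ⟨hB1, hB2⟩
  rw [Finset.card_map]
  refine ⟨fun hs => hB1 ?_, hB2⟩
  obtain ⟨hs1, hs2⟩ := hs
  rw [Finset.card_map] at hs2
  rw [← hσ2, ← Finset.map_inter, Finset.map_nonempty] at hs1
  exact ⟨hs1, hs2⟩

lemma rest_eq {U : Finset V} {L : ℕ} {A : ℕ → Prop} {R R' : Finset V} (h1 : R.card = R'.card)
    (h2 : (R ∩ U).card = (R' ∩ U).card) (q i : ℕ) : rest U L A R q i = rest U L A R' q i :=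
  le_antisymm (rest_le h1 h2 q i) (rest_le h1.symm h2.symm q i)

/-- number of blocks, vertices, hubs of a family of special blocks -/
def key (U : Finset V) (S : Finset (Finset V)) : ℕ × ℕ × ℕ :=
  (S.card, (S.biUnion id).card, (S.biUnion id ∩ U).card)

lemma rest_key {U : Finset V} {L : ℕ} {A : ℕ → Prop} {S S' : Finset (Finset V)}
    (h : key U S = key U S') (i : ℕ) :
    rest U L A (univ \ S.biUnion id) S.card i = rest U L A (univ \ S'.biUnion id) S'.card i := by
  have h1 : S.card = S'.card := congrArg Prod.fst h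
  have h2 : (S.biUnion id).card = (S'.biUnion id).card := congrArg (fun x => x.2.1) h
  have h3 : (S.biUnion id ∩ U).card = (S'.biUnion id ∩ U).card := congrArg (fun x => x.2.2) h
  rw [h1]
  have g : ∀ X : Finset V, ((univ \ X) ∩ U).card + (X ∩ U).card = U.card := by
    intro X
    have := Finset.card_sdiff_add_card_inter U X
    rw [Finset.inter_comm U X] at this
    rw [← this]
    congr 2
    ext x
    simp [and_comm]
  refine rest_eq ?_ ?_ _ _
  · rw [Finset.card_univ_sdiff, Finset.card_univ_sdiff, h2]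
  · have := g (S.biUnion id)
    have := g (S'.biUnion id)
    omega

lemma sum_key {α : Type} (A B : Finset α) (ky : α → ℕ × ℕ × ℕ) [DecidableEq α] (f : α → ℕ)
    (hf : ∀ a b, ky a = ky b → f a = f b)
    (hN : ∀ k, (A.filter fun a => ky a = k).card = (B.filter fun a => ky a = k).card) :
    ∑ a ∈ A, f a = ∑ a ∈ B, f a := by
  classical
  let T := A.image ky ∪ B.image ky
  rw [← Finset.sum_fiberwise_of_maps_to (s := A) (t := T) (g := ky)
    (fun a ha => Finset.mem_union_left _ (Finset.mem_image_of_mem _ ha)),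
    ← Finset.sum_fiberwise_of_maps_to (s := B) (t := T) (g := ky)
    (fun a ha => Finset.mem_union_right _ (Finset.mem_image_of_mem _ ha))]
  refine Finset.sum_congr rfl fun k _ => ?_
  rcases (A.filter fun a => ky a = k).eq_empty_or_nonempty with h | h
  · have h' : (B.filter fun a => ky a = k) = ∅ := by
      rw [← Finset.card_eq_zero, ← hN k, h, Finset.card_empty]
    rw [h, h']
  · obtain ⟨a₀, ha₀⟩ := h
    have hk : ky a₀ = k := (Finset.mem_filter.1 ha₀).2
    have h1 : ∀ C : Finset α, ∑ a ∈ C.filter (fun a => ky a = k), f a =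
        (C.filter fun a => ky a = k).card * f a₀ := by
      intro C
      rw [Finset.sum_congr rfl (g := fun _ => f a₀), Finset.sum_const, smul_eq_mul]
      intro a ha
      exact hf _ _ ((Finset.mem_filter.1 ha).2.trans hk.symm)
    rw [h1, h1, hN]

/-- equal numbers of special families give equal numbers of partitions -/
lemma fam_card_eq {U : Finset V} {L : ℕ} {pr pr' : Finset V → Prop} {A : ℕ → Prop}
    (h : ∀ B : Finset V, B.Nonempty → ¬ Sp U L B → (pr B ↔ A B.card))
    (h' : ∀ B : Finset V, B.Nonempty → ¬ Sp U L B → (pr' B ↔ A B.card))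
    (hN : ∀ k, ((SF U L pr).filter fun S => key U S = k).card =
      ((SF U L pr').filter fun S => key U S = k).card) (i : ℕ) :
    (fam pr univ 0 i).card = (fam pr' univ 0 i).card := by
  rw [split h, split h']
  exact sum_key _ _ (key U) _ (fun a b hab => rest_key hab i) hN

/-! ### Bounds -/

lemma card_small (L : ℕ) :
    (univ.filter fun C : Finset V => C.card ≤ L).card ≤ (Fintype.card V + 1) ^ L := by
  classical
  have h : Fintype.card (Fin L → Option V) = (Fintype.card V + 1) ^ L := by simp
  rw [← h, ← Finset.card_univ]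
  refine Finset.card_le_card_of_injOn (fun C => fun i : Fin L => C.toList[(i : ℕ)]?)
    (fun _ _ => Finset.mem_coe.2 (Finset.mem_univ _)) ?_
  intro C hC D hD hCD
  have hC' : C.card ≤ L := (Finset.mem_filter.1 (Finset.mem_coe.1 hC)).2
  have hD' : D.card ≤ L := (Finset.mem_filter.1 (Finset.mem_coe.1 hD)).2
  have hl : C.toList = D.toList := by
    apply List.ext_getElem?
    intro i
    by_cases hi : i < L
    · exact congrFun hCD ⟨i, hi⟩
    · rw [List.getElem?_eq_none (by rw [Finset.length_toList]; omega),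
        List.getElem?_eq_none (by rw [Finset.length_toList]; omega)]
  rw [← Finset.toList_toFinset C, ← Finset.toList_toFinset D, hl]

lemma card_SF_le (U : Finset V) (L : ℕ) (pr : Finset V → Prop) :
    (SF U L pr).card ≤ ((Fintype.card V + 1) ^ L) ^ U.card := by
  classical
  have hb : (Fintype.piFinset fun _ : {x // x ∈ U} =>
      univ.filter fun C : Finset V => C.card ≤ L).card ≤
      ((Fintype.card V + 1) ^ L) ^ U.card := by
    rw [Fintype.card_piFinset, Finset.prod_const, Finset.card_univ, Fintype.card_coe]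
    exact Nat.pow_le_pow_left (card_small L) _
  refine le_trans (Finset.card_le_card_of_injOn
    (fun S => fun u : {x // x ∈ U} => (S.filter fun B => u.1 ∈ B).biUnion id) ?_ ?_) hb
  · intro S hS
    obtain ⟨hS1, hS2⟩ := mem_SF.1 (Finset.mem_coe.1 hS)
    refine Finset.mem_coe.2 (Fintype.mem_piFinset.2 fun u => ?_)
    refine Finset.mem_filter.2 ⟨Finset.mem_univ _, ?_⟩
    show ((S.filter fun B => u.1 ∈ B).biUnion id).card ≤ L
    rcases (S.filter fun B => u.1 ∈ B).eq_empty_or_nonempty with h | ⟨B, hB⟩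
    · rw [h]; simp
    · obtain ⟨hB1, hB2⟩ := Finset.mem_filter.1 hB
      have : (S.filter fun B => u.1 ∈ B) = {B} := by
        ext C
        rw [Finset.mem_filter, Finset.mem_singleton]
        constructor
        · rintro ⟨hC1, hC2⟩
          by_contra hne
          exact Finset.disjoint_left.1 (hS1 hC1 hB1 hne) hC2 hB2
        · rintro rfl
          exact ⟨hB1, hB2⟩
      rw [this, Finset.singleton_biUnion]
      exact (hS2 B hB1).1.2
  · have key1 : ∀ S ∈ SF U L pr, ∀ B, B ∈ S ↔ ∃ u : {x // x ∈ U},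
        u.1 ∈ (S.filter fun B => u.1 ∈ B).biUnion id ∧
          (S.filter fun B => u.1 ∈ B).biUnion id = B := by
      intro S hS B
      obtain ⟨hS1, hS2⟩ := mem_SF.1 hS
      have g : ∀ (u : V) (C : Finset V), C ∈ S → u ∈ C →
          (S.filter fun B => u ∈ B).biUnion id = C := by
        intro u C hC hu
        have : (S.filter fun B => u ∈ B) = {C} := by
          ext D
          rw [Finset.mem_filter, Finset.mem_singleton]
          constructor
          · rintro ⟨hD1, hD2⟩
            by_contra hne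
            exact Finset.disjoint_left.1 (hS1 hD1 hC hne) hD2 hu
          · rintro rfl
            exact ⟨hC, hu⟩
        rw [this, Finset.singleton_biUnion]
        rfl
      constructor
      · intro hB
        obtain ⟨u, hu⟩ := (hS2 B hB).1.1
        obtain ⟨hu1, hu2⟩ := Finset.mem_inter.1 hu
        refine ⟨⟨u, hu2⟩, ?_, g u B hB hu1⟩
        show u ∈ (S.filter fun B => u ∈ B).biUnion id
        rw [g u B hB hu1]
        exact hu1
      · rintro ⟨u, hu, rfl⟩
        obtain ⟨C, hC, huC⟩ := Finset.mem_biUnion.1 hu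
        obtain ⟨hC1, hC2⟩ := Finset.mem_filter.1 hC
        rw [g u.1 C hC1 hC2]
        exact hC1
    intro S hS S' hS' h
    ext B
    rw [key1 S hS, key1 S' hS']
    have hu : ∀ u : {x // x ∈ U}, (S.filter fun B => u.1 ∈ B).biUnion id =
        (S'.filter fun B => u.1 ∈ B).biUnion id := fun u => congrFun h u
    simp only [hu]

lemma key_bound {U : Finset V} {L : ℕ} {pr : Finset V → Prop} {S : Finset (Finset V)}
    (hS : S ∈ SF U L pr) :
    S.card ≤ U.card ∧ (S.biUnion id).card ≤ U.card * L ∧ (S.biUnion id ∩ U).card ≤ U.card := by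
  obtain ⟨hS1, hS2⟩ := mem_SF.1 hS
  have h1 : S.card ≤ U.card := by
    have h2 : (S.biUnion fun B => B ∩ U).card = ∑ B ∈ S, (B ∩ U).card := by
      refine Finset.card_biUnion fun B hB C hC hBC => ?_
      exact (hS1 hB hC hBC).mono Finset.inter_subset_left Finset.inter_subset_left
    have h3 : (S.biUnion fun B => B ∩ U) ⊆ U :=
      Finset.biUnion_subset.2 fun B _ => Finset.inter_subset_right
    have h4 := Finset.card_le_card h3
    rw [h2] at h4
    refine le_trans ?_ h4
    rw [Finset.card_eq_sum_ones]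
    exact Finset.sum_le_sum fun B hB => Finset.card_pos.2 (hS2 B hB).1.1
  refine ⟨h1, ?_, Finset.card_le_card Finset.inter_subset_right⟩
  refine (Finset.card_biUnion_le_card_mul S id L fun B hB => (hS2 B hB).1.2).trans ?_
  exact Nat.mul_le_mul_right _ h1

end

end Pool.Agent.Mate
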